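import Pool.Agent.Helper20.IIC.Stmts

set_option autoImplicit false
set_option linter.unusedSectionVars false

/-! Module FIN: the finite comparison inequality. -/

namespace IIC

open Filter Topology Set MeasureTheory
open scoped BigOperators

section fin

variable {V : Type} [Fintype V] [DecidableEq V] {E : Type} [Fintype E] [DecidableEq E]
  {ends : E → Sym2 V} {β : ℝ}

theorem fin_two_self (x : V) : (two x x : (V → ℤˣ) → ℝ) = fun _ => 1 := by
  funext σ
  rcases Int.units_eq_one_or (σ x) with h | h <;> simp [two, h]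

theorem fin_two_comm (x y : V) : (two x y : (V → ℤˣ) → ℝ) = two y x := by
  funext σ
  simp [two, mul_comm]

theorem fin_two_mul (x y z : V) :
    (fun σ : V → ℤˣ => two x y σ * two y z σ) = two x z := by
  funext σ
  rcases Int.units_eq_one_or (σ y) with h | h <;>
    rcases Int.units_eq_one_or (σ x) with h1 | h1 <;>
    rcases Int.units_eq_one_or (σ z) with h2 | h2 <;> simp [two, h, h1, h2]

theorem fin_congr {f g : (V → ℤˣ) → ℝ} {Ψ Φ : Finset E → Finset E → ℝ}
    (h : ∀ T₁ T₂, tw ends β T₁ f ≠ 0 → tw ends β T₂ g ≠ 0 → Ψ T₁ T₂ = Φ T₁ T₂) :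
    PP ends β f g Ψ = PP ends β f g Φ := by
  unfold PP
  refine Finset.sum_congr rfl fun T₁ _ => Finset.sum_congr rfl fun T₂ _ => ?_
  by_cases h1 : tw ends β T₁ f = 0
  · simp [h1]
  by_cases h2 : tw ends β T₂ g = 0
  · simp [h2]
  rw [h T₁ T₂ h1 h2]

theorem fin_mono {f g : (V → ℤˣ) → ℝ} {Ψ Φ : Finset E → Finset E → ℝ}
    (hf : ∀ T, 0 ≤ tw ends β T f) (hg : ∀ T, 0 ≤ tw ends β T g)
    (h : ∀ T₁ T₂, tw ends β T₁ f ≠ 0 → tw ends β T₂ g ≠ 0 → Ψ T₁ T₂ ≤ Φ T₁ T₂) :
    PP ends β f g Ψ ≤ PP ends β f g Φ := by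
  unfold PP
  refine Finset.sum_le_sum fun T₁ _ => Finset.sum_le_sum fun T₂ _ => ?_
  by_cases h1 : tw ends β T₁ f = 0
  · simp [h1]
  by_cases h2 : tw ends β T₂ g = 0
  · simp [h2]
  exact mul_le_mul_of_nonneg_left (h T₁ T₂ h1 h2) (mul_nonneg (hf _) (hg _))

theorem fin_nonneg {f g : (V → ℤˣ) → ℝ} {Ψ : Finset E → Finset E → ℝ}
    (hf : ∀ T, 0 ≤ tw ends β T f) (hg : ∀ T, 0 ≤ tw ends β T g) (h : ∀ T₁ T₂, 0 ≤ Ψ T₁ T₂) :
    0 ≤ PP ends β f g Ψ := by
  unfold PP
  exact Finset.sum_nonneg fun T₁ _ => Finset.sum_nonneg fun T₂ _ =>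
    mul_nonneg (mul_nonneg (hf _) (hg _)) (h _ _)

theorem fin_add (f g : (V → ℤˣ) → ℝ) (Ψ Φ : Finset E → Finset E → ℝ) :
    PP ends β f g (fun T₁ T₂ => Ψ T₁ T₂ + Φ T₁ T₂) = PP ends β f g Ψ + PP ends β f g Φ := by
  unfold PP
  simp only [mul_add, Finset.sum_add_distrib]

theorem fin_sub (f g : (V → ℤˣ) → ℝ) (Ψ Φ : Finset E → Finset E → ℝ) :
    PP ends β f g (fun T₁ T₂ => Ψ T₁ T₂ - Φ T₁ T₂) = PP ends β f g Ψ - PP ends β f g Φ := by
  unfold PP
  simp only [mul_sub, Finset.sum_sub_distrib]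

theorem fin_smul (f g : (V → ℤˣ) → ℝ) (c : ℝ) (Ψ : Finset E → Finset E → ℝ) :
    PP ends β f g (fun T₁ T₂ => c * Ψ T₁ T₂) = c * PP ends β f g Ψ := by
  unfold PP
  rw [Finset.mul_sum]
  refine Finset.sum_congr rfl fun T₁ _ => ?_
  rw [Finset.mul_sum]
  refine Finset.sum_congr rfl fun T₂ _ => by ring

theorem fin_sum {ι : Type} (s : Finset ι) (f g : (V → ℤˣ) → ℝ)
    (Ψ : ι → Finset E → Finset E → ℝ) :
    PP ends β f g (fun T₁ T₂ => ∑ i ∈ s, Ψ i T₁ T₂) = ∑ i ∈ s, PP ends β f g (Ψ i) := by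
  classical
  induction s using Finset.induction_on with
  | empty => simp [PP]
  | insert a s ha ih =>
    simp only [Finset.sum_insert ha]
    rw [fin_add, ih]

theorem fin_swap (f g : (V → ℤˣ) → ℝ) (Ψ : Finset E → Finset E → ℝ) :
    PP ends β f g Ψ = PP ends β g f (fun T₁ T₂ => Ψ T₂ T₁) := by
  unfold PP
  rw [Finset.sum_comm]
  refine Finset.sum_congr rfl fun T₁ _ => Finset.sum_congr rfl fun T₂ _ => by ring

theorem fin_prod (f g : (V → ℤˣ) → ℝ) (p q : Finset E → ℝ) :
    PP ends β f g (fun T₁ T₂ => p T₁ * q T₂) =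
      (∑ T, tw ends β T f * p T) * ∑ T, tw ends β T g * q T := by
  unfold PP
  rw [Finset.sum_mul_sum]
  refine Finset.sum_congr rfl fun T₁ _ => Finset.sum_congr rfl fun T₂ _ => by ring

theorem fin_cs {f g : (V → ℤˣ) → ℝ} (Ψ : Finset E → Finset E → ℝ)
    (hf : ∀ T, 0 ≤ tw ends β T f) (hg : ∀ T, 0 ≤ tw ends β T g) :
    PP ends β f g Ψ ^ 2 ≤
      PP ends β f g (fun _ _ => 1) * PP ends β f g (fun T₁ T₂ => Ψ T₁ T₂ ^ 2) := by
  have e : ∀ Φ : Finset E → Finset E → ℝ, PP ends β f g Φ =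
      ∑ p ∈ (Finset.univ : Finset (Finset E)) ×ˢ (Finset.univ : Finset (Finset E)),
        tw ends β p.1 f * tw ends β p.2 g * Φ p.1 p.2 := by
    intro Φ
    rw [Finset.sum_product]
    rfl
  rw [e, e, e]
  refine Finset.sum_sq_le_sum_mul_sum_of_sq_le_mul _ ?_ ?_ ?_
  · intro p _
    have := mul_nonneg (hf p.1) (hg p.2)
    simpa using this
  · intro p _
    exact mul_nonneg (mul_nonneg (hf p.1) (hg p.2)) (sq_nonneg _)
  · intro p _
    exact le_of_eq (by ring)

theorem fin_kap_nonneg (u v : V) (T₁ T₂ : Finset E) : 0 ≤ kap ends u v T₁ T₂ := by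
  unfold kap
  exact indicator_nonneg (fun _ _ => zero_le_one) _

theorem fin_kap_one {u v : V} {T₁ T₂ : Finset E}
    (h : Conn ends ((T₁ ∪ T₂ : Finset E) : Set E) u v) : kap ends u v T₁ T₂ = 1 := by
  unfold kap
  rw [indicator_of_mem]
  exact h

theorem fin_conn_mono {S T : Set E} (h : S ⊆ T) {x y : V} (hc : Conn ends S x y) :
    Conn ends T x y := by
  unfold Conn at *
  induction hc with
  | refl => exact .refl
  | tail _ h' ih =>
    obtain ⟨e, he, h'⟩ := h'
    exact ih.tail ⟨e, h he, h'⟩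

theorem fin_conn_symm {T : Set E} {x y : V} (hc : Conn ends T x y) : Conn ends T y x := by
  unfold Conn at *
  induction hc with
  | refl => exact .refl
  | tail _ h ih =>
    obtain ⟨e, he, h⟩ := h
    exact Relation.ReflTransGen.head ⟨e, he, by rw [h, Sym2.eq_swap]⟩ ih

theorem fin_conn_trans {T : Set E} {x y z : V} (h1 : Conn ends T x y) (h2 : Conn ends T y z) :
    Conn ends T x z := Relation.ReflTransGen.trans h1 h2

/-- a connection either avoids `F` or reaches an endpoint of `F` -/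
theorem fin_avoid (F T : Finset E) {x y : V} (h : Conn ends (T : Set E) x y) :
    Conn ends ((T \ F : Finset E) : Set E) x y ∨
      ∃ z, IsEnd ends F z ∧ Conn ends (T : Set E) x z := by
  unfold Conn at h
  induction h with
  | refl => exact Or.inl Relation.ReflTransGen.refl
  | tail hab hbc ih =>
    rename_i b c
    rcases ih with h1 | h1
    · obtain ⟨e, he, hbc'⟩ := hbc
      by_cases heF : e ∈ F
      · exact Or.inr ⟨b, ⟨e, heF, by rw [hbc']; exact Sym2.mem_mk_left b c⟩, hab⟩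
      · refine Or.inl (Relation.ReflTransGen.tail h1 ⟨e, ?_, hbc'⟩)
        simp only [Finset.coe_sdiff, Set.mem_sdiff, Finset.mem_coe]
        exact ⟨he, heF⟩
    · exact Or.inr h1


/-! ### sums -/

theorem fin_sum_tw (h : ST_TWS) (f : (V → ℤˣ) → ℝ) :
    ∑ T : Finset E, tw ends β T f = Zs ends β ∅ f := by
  have := h V E ends β ∅ f
  rw [← this]
  refine Finset.sum_congr rfl fun T _ => ?_
  rw [indicator_of_mem]
  simp [ef]

theorem fin_PP_one (h : ST_TWS) (f g : (V → ℤˣ) → ℝ) :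
    PP ends β f g (fun _ _ => 1) = Zs ends β ∅ f * Zs ends β ∅ g := by
  have := fin_prod (ends := ends) (β := β) f g (fun _ => 1) (fun _ => 1)
  simp only [mul_one] at this
  rw [this, fin_sum_tw h, fin_sum_tw h]

theorem fin_PP_A (h : ST_TWS) (F : Finset E) (f g : (V → ℤˣ) → ℝ) :
    PP ends β f g (fun T₁ _ => (ef F).indicator (fun _ => (1 : ℝ)) T₁) =
      Zs ends β F f * Zs ends β ∅ g := by
  have := fin_prod (ends := ends) (β := β) f g ((ef F).indicator (fun _ => (1 : ℝ)))
    (fun _ => 1)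
  simp only [mul_one] at this
  rw [this, fin_sum_tw h, ← h V E ends β F f]
  congr 1
  refine Finset.sum_congr rfl fun T _ => ?_
  by_cases hT : T ∈ ef F
  · rw [indicator_of_mem hT, indicator_of_mem hT, mul_one]
  · rw [indicator_of_notMem hT, indicator_of_notMem hT, mul_zero]

theorem fin_switch0 (h : ST_SWI) (f g : (V → ℤˣ) → ℝ) (u v : V) (ψ : Finset E → ℝ)
    (hψ : ∀ T : Finset E, ψ T ≠ 0 → Conn ends (T : Set E) u v) :
    PP ends β f g (fun T₁ T₂ => ψ (T₁ ∪ T₂)) =
      PP ends β (fun σ => f σ * two u v σ) (fun σ => g σ * two u v σ)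
        (fun T₁ T₂ => ψ (T₁ ∪ T₂)) := by
  have := h V E ends β ∅ f g u v ψ (by simpa using hψ)
  have e : ∀ T : Finset E, T ∈ (ef (∅ : Finset E)) := by
    intro T
    simp [ef]
  simpa only [indicator_of_mem (e _)] using this

theorem fin_kap_eq {u v u' v' : V} {T₁ T₂ : Finset E}
    (h : Conn ends ((T₁ ∪ T₂ : Finset E) : Set E) u v ↔
      Conn ends ((T₁ ∪ T₂ : Finset E) : Set E) u' v') :
    kap ends u v T₁ T₂ = kap ends u' v' T₁ T₂ := by
  unfold kap
  by_cases hc : (T₁ ∪ T₂) ∈ cn ends u v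
  · rw [indicator_of_mem hc, indicator_of_mem]
    exact h.1 hc
  · rw [indicator_of_notMem hc, indicator_of_notMem]
    exact fun h' => hc (h.2 h')

theorem fin_K2 (h : ST_SWI) (f g : (V → ℤˣ) → ℝ) (u v : V) :
    PP ends β f g (kap ends u v) =
      PP ends β (fun σ => f σ * two u v σ) (fun σ => g σ * two u v σ) (kap ends u v) := by
  refine fin_switch0 h f g u v ((cn ends u v).indicator (fun _ => (1 : ℝ))) ?_
  intro T hT
  by_contra hc
  exact hT (indicator_of_notMem (show T ∉ cn ends u v from hc) _)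

theorem fin_union_left {T₁ T₂ : Finset E} {x y : V} (h : Conn ends (T₁ : Set E) x y) :
    Conn ends ((T₁ ∪ T₂ : Finset E) : Set E) x y :=
  fin_conn_mono (by rw [Finset.coe_union]; exact Set.subset_union_left) h

theorem fin_union_right {T₁ T₂ : Finset E} {x y : V} (h : Conn ends (T₂ : Set E) x y) :
    Conn ends ((T₁ ∪ T₂ : Finset E) : Set E) x y :=
  fin_conn_mono (by rw [Finset.coe_union]; exact Set.subset_union_right) h

/-- the probability of `u ↔ o` -/
theorem fin_K1 (hT : ST_TWS) (hS : ST_SWI) (hR : ST_SRC) (o u y : V) :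
    PP ends β (two o y) (fun _ => 1) (kap ends o u) =
      Zs ends β ∅ (two u y) * Zs ends β ∅ (two o u) := by
  rw [fin_K2 hS, ← fin_PP_one hT]
  have e1 : (fun σ : V → ℤˣ => two o y σ * two o u σ) = two u y := by
    rw [← fin_two_mul u o y, fin_two_comm u o]
    funext σ
    ring
  have e2 : (fun σ : V → ℤˣ => (1 : ℝ) * two o u σ) = two o u := by
    funext σ
    ring
  rw [e1, e2]
  refine fin_congr fun T₁ T₂ _ h2 => ?_
  exact fin_kap_one (fin_union_right (hR V E ends β T₂ o u h2))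

/-- the probability of `u, v ↔ o` -/
theorem fin_K12 (hS : ST_SWI) (hR : ST_SRC) (o u v y : V) :
    PP ends β (two o y) (fun _ => 1) (fun T₁ T₂ => kap ends o u T₁ T₂ * kap ends o v T₁ T₂) =
      PP ends β (two o u) (two u y) (kap ends u v) := by
  have h1 := fin_switch0 (ends := ends) (β := β) hS (two o y) (fun _ => 1) o u
    (fun T => (cn ends o u).indicator (fun _ => (1 : ℝ)) T *
      (cn ends o v).indicator (fun _ => (1 : ℝ)) T) (by
        intro T hT
        by_contra hc
        exact hT (by rw [indicator_of_notMem (show T ∉ cn ends o u from hc), zero_mul]))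
  have e1 : (fun σ : V → ℤˣ => two o y σ * two o u σ) = two u y := by
    rw [← fin_two_mul u o y, fin_two_comm u o]
    funext σ
    ring
  have e2 : (fun σ : V → ℤˣ => (1 : ℝ) * two o u σ) = two o u := by
    funext σ
    ring
  rw [e1, e2] at h1
  refine (h1.trans ?_)
  rw [fin_swap]
  refine fin_congr fun T₁ T₂ h1 _ => ?_
  have hc := hR V E ends β T₁ o u h1
  have hc1 : Conn ends ((T₂ ∪ T₁ : Finset E) : Set E) o u := fin_union_right hc
  have hc2 : Conn ends ((T₁ ∪ T₂ : Finset E) : Set E) o u := fin_union_left hc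
  rw [indicator_of_mem (show T₂ ∪ T₁ ∈ cn ends o u from hc1), one_mul, Finset.union_comm]
  exact fin_kap_eq ⟨fun h => fin_conn_trans (fin_conn_symm hc2) h,
    fun h => fin_conn_trans hc2 h⟩

theorem fin_K12_le (hT : ST_TWS) (hS : ST_SWI) (hR : ST_SRC) (hX : ST_EXPL) (hβ : 0 ≤ β)
    (o u v y : V) :
    PP ends β (two o y) (fun _ => 1) (fun T₁ T₂ => kap ends o u T₁ T₂ * kap ends o v T₁ T₂) *
      Zs ends β ∅ (fun _ => 1) ≤
      Zs ends β ∅ (two o v) * Zs ends β ∅ (two u v) * Zs ends β ∅ (two u y) +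
      Zs ends β ∅ (two u v) * Zs ends β ∅ (two v y) * Zs ends β ∅ (two o u) := by
  rw [fin_K12 hS hR]
  refine (hX V E ends β o u y v hβ).trans (le_of_eq ?_)
  have e1 : PP ends β (two o u) (fun _ => 1) (kap ends u v) =
      Zs ends β ∅ (two o v) * Zs ends β ∅ (two u v) := by
    rw [fin_K2 hS, ← fin_PP_one hT]
    have e1 : (fun σ : V → ℤˣ => two o u σ * two u v σ) = two o v := fin_two_mul o u v
    have e2 : (fun σ : V → ℤˣ => (1 : ℝ) * two u v σ) = two u v := by
      funext σ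
      ring
    rw [e1, e2]
    refine fin_congr fun T₁ T₂ _ h2 => ?_
    exact fin_kap_one (fin_union_right (hR V E ends β T₂ u v h2))
  have e2 : PP ends β (fun _ => 1) (two u y) (kap ends u v) =
      Zs ends β ∅ (two u v) * Zs ends β ∅ (two v y) := by
    rw [fin_K2 hS, ← fin_PP_one hT]
    have e1 : (fun σ : V → ℤˣ => two u y σ * two u v σ) = two v y := by
      rw [← fin_two_mul v u y, fin_two_comm v u]
      funext σ
      ring
    have e2 : (fun σ : V → ℤˣ => (1 : ℝ) * two u v σ) = two u v := by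
      funext σ
      ring
    rw [e1, e2]
    refine fin_congr fun T₁ T₂ h1 _ => ?_
    exact fin_kap_one (fin_union_left (hR V E ends β T₁ u v h1))
  rw [e1, e2]

theorem fin_Z_nonneg (hN : ST_TWN) (hT : ST_TWS) (hβ : 0 ≤ β) (F : Finset E) (x y : V) :
    0 ≤ Zs ends β F (two x y) := by
  rw [← hT V E ends β F (two x y)]
  exact Finset.sum_nonneg fun T _ => indicator_nonneg (fun T _ => hN V E ends β T x y hβ) _

theorem fin_z1_pos : 0 < Zs ends β ∅ (fun _ => 1) := by
  unfold Zs
  refine Finset.sum_pos (fun σ _ => ?_) ⟨fun _ => 1, Finset.mem_univ _⟩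
  rw [one_mul]
  exact Finset.prod_pos fun e _ => Real.exp_pos _


/-- indicator of `u ↔ y` in `T \ F` -/
noncomputable def fin_eta (ends : E → Sym2 V) (F : Finset E) (u y : V) (T : Finset E) : ℝ :=
  {T : Finset E | Conn ends ((T \ F : Finset E) : Set E) u y}.indicator (fun _ => (1 : ℝ)) T

theorem fin_eta_ne {F : Finset E} {u y : V} {T : Finset E} (h : fin_eta ends F u y T ≠ 0) :
    Conn ends ((T \ F : Finset E) : Set E) u y := by
  by_contra hc
  exact h (indicator_of_notMem
    (s := {T : Finset E | Conn ends ((T \ F : Finset E) : Set E) u y}) hc _)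

theorem fin_eta_one {F : Finset E} {u y : V} {T : Finset E}
    (h : Conn ends ((T \ F : Finset E) : Set E) u y) : fin_eta ends F u y T = 1 :=
  indicator_of_mem (s := {T : Finset E | Conn ends ((T \ F : Finset E) : Set E) u y}) h _

theorem fin_eta_nonneg (F : Finset E) (u y : V) (T : Finset E) : 0 ≤ fin_eta ends F u y T :=
  indicator_nonneg (fun _ _ => zero_le_one) _

theorem fin_eta_le_one (F : Finset E) (u y : V) (T : Finset E) : fin_eta ends F u y T ≤ 1 :=
  indicator_le_self' (fun _ _ => zero_le_one) _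

theorem fin_eta_le_kap (F : Finset E) (u y : V) (T₁ T₂ : Finset E) :
    fin_eta ends F u y (T₁ ∪ T₂) ≤ kap ends u y T₁ T₂ := by
  by_cases h : Conn ends (((T₁ ∪ T₂) \ F : Finset E) : Set E) u y
  · rw [fin_kap_one]
    · exact fin_eta_le_one F u y _
    · refine fin_conn_mono ?_ h
      rw [Finset.coe_subset]
      exact Finset.sdiff_subset
  · have : fin_eta ends F u y (T₁ ∪ T₂) = 0 := by
      by_contra hc
      exact h (fin_eta_ne hc)
    rw [this]
    exact fin_kap_nonneg u y T₁ T₂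

/-- indicator of `T₁ ∩ F = ∅` -/
noncomputable def fin_A (F : Finset E) (T : Finset E) : ℝ := (ef F).indicator (fun _ => (1 : ℝ)) T

theorem fin_A_nonneg (F T : Finset E) : 0 ≤ fin_A F T :=
  indicator_nonneg (fun _ _ => zero_le_one) _

theorem fin_A_le_one (F T : Finset E) : fin_A F T ≤ 1 :=
  indicator_le_self' (fun _ _ => zero_le_one) _

/-- switching for the event `η` -/
theorem fin_swA (hS : ST_SWI) (F : Finset E) (o u y : V) :
    PP ends β (two o y) (fun _ => 1) (fun T₁ T₂ => fin_A F T₁ * fin_eta ends F u y (T₁ ∪ T₂)) =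
      PP ends β (two o u) (two u y) (fun T₁ T₂ => fin_A F T₁ * fin_eta ends F u y (T₁ ∪ T₂)) := by
  have h1 := hS V E ends β F (two o y) (fun _ => 1) u y (fin_eta ends F u y)
    (fun T hT => fin_eta_ne hT)
  have e1 : (fun σ : V → ℤˣ => two o y σ * two u y σ) = two o u := by
    rw [← fin_two_mul o y u, fin_two_comm y u]
  have e2 : (fun σ : V → ℤˣ => (1 : ℝ) * two u y σ) = two u y := by
    funext σ
    ring
  rw [e1, e2] at h1
  have e3 : ∀ T₁ T₂ : Finset E, (ef F).indicator (fun _ => fin_eta ends F u y (T₁ ∪ T₂)) T₁ =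
      fin_A F T₁ * fin_eta ends F u y (T₁ ∪ T₂) := by
    intro T₁ T₂
    unfold fin_A
    by_cases h : T₁ ∈ ef F
    · rw [indicator_of_mem h, indicator_of_mem h, one_mul]
    · rw [indicator_of_notMem h, indicator_of_notMem h, zero_mul]
  simp only [e3] at h1
  exact h1

theorem fin_sw0 (hS : ST_SWI) (F : Finset E) (o u y : V) :
    PP ends β (two o y) (fun _ => 1) (fun T₁ T₂ => fin_eta ends F u y (T₁ ∪ T₂)) =
      PP ends β (two o u) (two u y) (fun T₁ T₂ => fin_eta ends F u y (T₁ ∪ T₂)) := by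
  have h1 := fin_switch0 (ends := ends) (β := β) hS (two o y) (fun _ => 1) u y
    (fin_eta ends F u y) (fun T hT => fin_conn_mono (by
      rw [Finset.coe_subset]
      exact Finset.sdiff_subset) (fin_eta_ne hT))
  have e1 : (fun σ : V → ℤˣ => two o y σ * two u y σ) = two o u := by
    rw [← fin_two_mul o y u, fin_two_comm y u]
  have e2 : (fun σ : V → ℤˣ => (1 : ℝ) * two u y σ) = two u y := by
    funext σ
    ring
  rw [e1, e2] at h1
  exact h1

/-- the probability that `T₂` connects `u` to `y` only through `F` -/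
theorem fin_Y (hN : ST_TWN) (hT : ST_TWS) (hS : ST_SWI) (hR : ST_SRC) (hβ : 0 ≤ β)
    (F : Finset E) (o u y : V) :
    PP ends β (two o u) (two u y) (fun T₁ T₂ => 1 - fin_eta ends F u y (T₁ ∪ T₂)) *
      Zs ends β ∅ (fun _ => 1) ≤ Zs ends β ∅ (two o u) *
      ∑ z, {z | IsEnd ends F z}.indicator
        (fun z => Zs ends β ∅ (two u z) * Zs ends β ∅ (two z y)) z := by
  have t1 : ∀ x z : V, ∀ T, 0 ≤ tw ends β T (two x z) := fun x z T => hN V E ends β T x z hβ
  have t0 : ∀ T, 0 ≤ tw ends β T (fun _ => 1) := by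
    intro T
    rw [← fin_two_self o]
    exact t1 o o T
  -- the indicator of `u ↔ z` in `T₂`
  let q : V → Finset E → ℝ := fun z T => (cn ends u z).indicator (fun _ => (1 : ℝ)) T
  have h1 : PP ends β (two o u) (two u y) (fun T₁ T₂ => 1 - fin_eta ends F u y (T₁ ∪ T₂)) ≤
      PP ends β (two o u) (two u y) (fun T₁ T₂ => ∑ z, {z | IsEnd ends F z}.indicator
        (fun z => (1 : ℝ)) z * q z T₂) := by
    refine fin_mono (t1 o u) (t1 u y) fun T₁ T₂ _ h2 => ?_
    have hnn : 0 ≤ ∑ z, {z | IsEnd ends F z}.indicator (fun z => (1 : ℝ)) z * q z T₂ :=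
      Finset.sum_nonneg fun z _ => mul_nonneg (indicator_nonneg (fun _ _ => zero_le_one) _)
        (indicator_nonneg (fun _ _ => zero_le_one) _)
    rcases fin_avoid F T₂ (hR V E ends β T₂ u y h2) with hc | ⟨z, hz, hc⟩
    · rw [fin_eta_one]
      · simpa using hnn
      · refine fin_conn_mono ?_ hc
        rw [Finset.coe_subset]
        exact Finset.sdiff_subset_sdiff Finset.subset_union_right (le_refl _)
    · have h3 : 1 - fin_eta ends F u y (T₁ ∪ T₂) ≤ 1 := by
        have := fin_eta_nonneg (ends := ends) F u y (T₁ ∪ T₂)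
        linarith
      refine h3.trans ?_
      have h4 : {z | IsEnd ends F z}.indicator (fun z => (1 : ℝ)) z * q z T₂ = 1 := by
        rw [indicator_of_mem (show z ∈ {z | IsEnd ends F z} from hz), one_mul]
        exact indicator_of_mem (show T₂ ∈ cn ends u z from hc) _
      refine (le_of_eq h4.symm).trans ?_
      refine Finset.single_le_sum (f := fun z => {z | IsEnd ends F z}.indicator
        (fun z => (1 : ℝ)) z * q z T₂) (fun z _ => ?_) (Finset.mem_univ z)
      exact mul_nonneg (indicator_nonneg (fun _ _ => zero_le_one) _)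
        (indicator_nonneg (fun _ _ => zero_le_one) _)
  have z1 := fin_z1_pos (ends := ends) (β := β)
  have h2 : PP ends β (two o u) (two u y) (fun T₁ T₂ => ∑ z, {z | IsEnd ends F z}.indicator
        (fun z => (1 : ℝ)) z * q z T₂) = Zs ends β ∅ (two o u) *
      ∑ z, {z | IsEnd ends F z}.indicator
        (fun z => ∑ T, tw ends β T (two u y) * q z T) z := by
    rw [fin_sum, Finset.mul_sum]
    refine Finset.sum_congr rfl fun z _ => ?_
    rw [fin_smul]
    have := fin_prod (ends := ends) (β := β) (two o u) (two u y) (fun _ => 1) (q z)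
    simp only [one_mul, mul_one] at this
    rw [this, fin_sum_tw hT]
    by_cases hz : z ∈ {z | IsEnd ends F z}
    · rw [indicator_of_mem hz, indicator_of_mem hz, one_mul]
    · rw [indicator_of_notMem hz, indicator_of_notMem hz, zero_mul, mul_zero]
  have h3 : ∀ z, (∑ T, tw ends β T (two u y) * q z T) * Zs ends β ∅ (fun _ => 1) ≤
      Zs ends β ∅ (two u z) * Zs ends β ∅ (two z y) := by
    intro z
    have e0 := fin_prod (ends := ends) (β := β) (fun _ => 1) (two u y) (fun _ => 1) (q z)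
    simp only [one_mul, mul_one] at e0
    rw [fin_sum_tw hT] at e0
    rw [mul_comm, ← e0]
    have e1 : PP ends β (fun _ => 1) (two u y) (kap ends u z) =
        Zs ends β ∅ (two u z) * Zs ends β ∅ (two z y) := by
      rw [fin_K2 hS, ← fin_PP_one hT]
      have e1 : (fun σ : V → ℤˣ => two u y σ * two u z σ) = two z y := by
        rw [← fin_two_mul z u y, fin_two_comm z u]
        funext σ
        ring
      have e2 : (fun σ : V → ℤˣ => (1 : ℝ) * two u z σ) = two u z := by
        funext σ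
        ring
      rw [e1, e2]
      refine fin_congr fun T₁ T₂ h1 _ => ?_
      exact fin_kap_one (fin_union_left (hR V E ends β T₁ u z h1))
    rw [← e1]
    refine fin_mono t0 (t1 u y) fun T₁ T₂ _ _ => ?_
    by_cases hc : Conn ends (T₂ : Set E) u z
    · rw [fin_kap_one (fin_union_right hc)]
      exact indicator_le_self' (fun _ _ => zero_le_one) _
    · have : q z T₂ = 0 := indicator_of_notMem (show T₂ ∉ cn ends u z from hc) _
      rw [this]
      exact fin_kap_nonneg _ _ _ _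
  calc _ ≤ _ := mul_le_mul_of_nonneg_right (h1.trans_eq h2) z1.le
    _ = Zs ends β ∅ (two o u) * ∑ z, {z | IsEnd ends F z}.indicator
        (fun z => (∑ T, tw ends β T (two u y) * q z T) * Zs ends β ∅ (fun _ => 1)) z := by
      rw [mul_assoc, Finset.sum_mul]
      congr 1
      refine Finset.sum_congr rfl fun z _ => ?_
      by_cases hz : z ∈ {z | IsEnd ends F z}
      · rw [indicator_of_mem hz, indicator_of_mem hz]
      · rw [indicator_of_notMem hz, indicator_of_notMem hz, zero_mul]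
    _ ≤ _ := by
      refine mul_le_mul_of_nonneg_left (Finset.sum_le_sum fun z _ => ?_)
        (fin_Z_nonneg hN hT hβ ∅ o u)
      exact indicator_le_indicator (h3 z)

/-- comparison of the probabilities of `A` -/
theorem fin_diff (hN : ST_TWN) (hT : ST_TWS) (hS : ST_SWI) (hR : ST_SRC) (hβ : 0 ≤ β)
    (F : Finset E) (o u y : V) :
    |PP ends β (two o y) (fun _ => 1) (fun T₁ T₂ => fin_A F T₁ * kap ends o u T₁ T₂) -
      Zs ends β F (two o u) * Zs ends β ∅ (two u y)| ≤
      PP ends β (two o u) (two u y) (fun T₁ T₂ => 1 - fin_eta ends F u y (T₁ ∪ T₂)) := by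
  have t1 : ∀ x z : V, ∀ T, 0 ≤ tw ends β T (two x z) := fun x z T => hN V E ends β T x z hβ
  have t0 : ∀ T, 0 ≤ tw ends β T (fun _ => 1) := by
    intro T
    rw [← fin_two_self o]
    exact t1 o o T
  -- on the support, `o ↔ u` iff `u ↔ y`
  have hk : ∀ T₁ T₂ : Finset E, tw ends β T₁ (two o y) ≠ 0 →
      kap ends o u T₁ T₂ = kap ends u y T₁ T₂ := by
    intro T₁ T₂ h
    have hc : Conn ends ((T₁ ∪ T₂ : Finset E) : Set E) o y :=
      fin_union_left (hR V E ends β T₁ o y h)
    exact fin_kap_eq ⟨fun h => fin_conn_trans (fin_conn_symm h) hc,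
      fun h => fin_conn_trans hc (fin_conn_symm h)⟩
  have e1 : PP ends β (two o y) (fun _ => 1) (fun T₁ T₂ => fin_A F T₁ * kap ends o u T₁ T₂) =
      PP ends β (two o y) (fun _ => 1) (fun T₁ T₂ => fin_A F T₁ * kap ends u y T₁ T₂) :=
    fin_congr fun T₁ T₂ h _ => by rw [hk T₁ T₂ h]
  have e2 : PP ends β (two o y) (fun _ => 1) (kap ends u y) =
      Zs ends β ∅ (two u y) * Zs ends β ∅ (two o u) := by
    rw [← fin_K1 hT hS hR o u y]
    exact fin_congr fun T₁ T₂ h _ => (hk T₁ T₂ h).symm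
  -- decomposition
  set X1 := PP ends β (two o y) (fun _ => 1)
    (fun T₁ T₂ => fin_A F T₁ * (kap ends u y T₁ T₂ - fin_eta ends F u y (T₁ ∪ T₂))) with hX1
  set X2 := PP ends β (two o u) (two u y)
    (fun T₁ T₂ => fin_A F T₁ * (1 - fin_eta ends F u y (T₁ ∪ T₂))) with hX2
  set Y := PP ends β (two o u) (two u y) (fun T₁ T₂ => 1 - fin_eta ends F u y (T₁ ∪ T₂)) with hY
  have d1 : PP ends β (two o y) (fun _ => 1) (fun T₁ T₂ => fin_A F T₁ * kap ends u y T₁ T₂) =
      PP ends β (two o y) (fun _ => 1)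
        (fun T₁ T₂ => fin_A F T₁ * fin_eta ends F u y (T₁ ∪ T₂)) + X1 := by
    rw [hX1, ← fin_add]
    congr 1
    funext T₁ T₂
    ring
  have d2 : Zs ends β F (two o u) * Zs ends β ∅ (two u y) =
      PP ends β (two o u) (two u y)
        (fun T₁ T₂ => fin_A F T₁ * fin_eta ends F u y (T₁ ∪ T₂)) + X2 := by
    rw [hX2, ← fin_add, ← fin_PP_A hT]
    congr 1
    funext T₁ T₂
    unfold fin_A
    ring
  have d3 : Y = Zs ends β ∅ (two o u) * Zs ends β ∅ (two u y) -
      PP ends β (two o u) (two u y) (fun T₁ T₂ => fin_eta ends F u y (T₁ ∪ T₂)) := by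
    rw [hY, fin_sub, fin_PP_one hT]
  have b1 : 0 ≤ X1 := fin_nonneg (t1 o y) t0 fun T₁ T₂ =>
    mul_nonneg (fin_A_nonneg _ _) (sub_nonneg.2 (fin_eta_le_kap F u y T₁ T₂))
  have b2 : X1 ≤ Y := by
    have : X1 ≤ PP ends β (two o y) (fun _ => 1)
        (fun T₁ T₂ => kap ends u y T₁ T₂ - fin_eta ends F u y (T₁ ∪ T₂)) := by
      refine fin_mono (t1 o y) t0 fun T₁ T₂ _ _ => ?_
      have h1 := sub_nonneg.2 (fin_eta_le_kap (ends := ends) F u y T₁ T₂)
      have h2 := fin_A_le_one F T₁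
      nlinarith
    refine this.trans (le_of_eq ?_)
    rw [fin_sub, d3]
    have e3 := fin_sw0 (ends := ends) (β := β) hS F o u y
    rw [← e3]
    have e4 : PP ends β (two o y) (fun _ => 1) (fun T₁ T₂ => kap ends u y T₁ T₂) =
      Zs ends β ∅ (two u y) * Zs ends β ∅ (two o u) := e2
    rw [e4]
    ring
  have b3 : 0 ≤ X2 := fin_nonneg (t1 o u) (t1 u y) fun T₁ T₂ =>
    mul_nonneg (fin_A_nonneg _ _) (sub_nonneg.2 (fin_eta_le_one F u y _))
  have b4 : X2 ≤ Y := by
    refine fin_mono (t1 o u) (t1 u y) fun T₁ T₂ _ _ => ?_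
    have h1 := sub_nonneg.2 (fin_eta_le_one (ends := ends) F u y (T₁ ∪ T₂))
    have h2 := fin_A_le_one F T₁
    nlinarith
  rw [e1, d1, d2, fin_swA hS, abs_le]
  constructor <;> linarith


/-- FK-Ising probabilities in terms of spins -/
theorem fin_fkP (hK : ST_FKS) (hβ : 0 ≤ β) (F : Finset E) (x y : V) :
    fkP ends β (ef F ∩ cn ends x y) = Real.exp (β * (Finset.univ \ F).card) *
      Zs ends β F (two x y) / (Real.exp (β * (Finset.univ : Finset E).card) *
        Zs ends β ∅ (fun _ => 1)) := by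
  unfold fkP
  rw [hK V E ends β F x y hβ]
  congr 1
  have h := hK V E ends β ∅ x x hβ
  rw [Finset.sdiff_empty, fin_two_self] at h
  rw [← h]
  refine Finset.sum_congr rfl fun T _ => ?_
  rw [indicator_of_mem]
  refine ⟨?_, Relation.ReflTransGen.refl⟩
  simp [ef]

theorem fin_fkP0 (hK : ST_FKS) (hβ : 0 ≤ β) (x y : V) :
    fkP ends β (cn ends x y) = Zs ends β ∅ (two x y) / Zs ends β ∅ (fun _ => 1) := by
  have h := fin_fkP (ends := ends) hK hβ ∅ x y
  have e : ef (∅ : Finset E) ∩ cn ends x y = cn ends x y := by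
    ext T
    simp [ef]
  rw [e, Finset.sdiff_empty] at h
  rw [h, mul_div_mul_left _ _ (Real.exp_pos _).ne']

end fin

theorem st_FIN (hN : ST_TWN) (hT : ST_TWS) (hS : ST_SWI) (hR : ST_SRC) (hK : ST_FKS)
    (hX : ST_EXPL) : ST_FIN := by
  intro V _ _ E _ _ ends β F o y w D c a hβ hc ha hw hw1 hoy hpos hD
  -- notation
  set z := Zs ends β ∅ (fun _ => 1) with hz
  have hz0 : 0 < z := fin_z1_pos
  set Z : V → V → ℝ := fun x y => Zs ends β ∅ (two x y) with hZ
  set G : V → V → ℝ := fun x y => Zs ends β F (two x y) with hG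
  have hcZ : ∀ x y, c x y = Z x y / z := fun x y => by rw [hc, fin_fkP0 hK hβ]
  have hZp : ∀ x y, 0 < c x y → 0 < Z x y := by
    intro x y h
    rw [hcZ] at h
    by_contra hn
    exact absurd h (not_lt.2 (div_nonpos_of_nonpos_of_nonneg (not_lt.1 hn) hz0.le))
  have hZc : ∀ x y, Z x y = z * c x y := fun x y => by rw [hcZ]; field_simp
  set r := Real.exp (β * (Finset.univ \ F).card) / Real.exp (β * (Finset.univ : Finset E).card)
    with hr
  have hr0 : 0 < r := div_pos (Real.exp_pos _) (Real.exp_pos _)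
  have hr1 : r ≤ 1 := by
    rw [hr, div_le_one (Real.exp_pos _)]
    refine Real.exp_le_exp.2 (mul_le_mul_of_nonneg_left ?_ hβ)
    exact_mod_cast Finset.card_le_card (Finset.sdiff_subset)
  have haG : ∀ x y, a x y = r * G x y / z := by
    intro x y
    rw [ha, fin_fkP hK hβ, hr]
    show _ * G x y / (_ * z) = _
    field_simp
  have hac : ∀ x y, a x y / c x y = r * (G x y / Z x y) := by
    intro x y
    rw [haG, hcZ]
    by_cases h : Z x y = 0
    · simp [h]
    · field_simp
  have hZnn : ∀ x y, 0 ≤ Z x y := fun x y => fin_Z_nonneg hN hT hβ ∅ x y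
  have hoyZ := hZp o y hoy
  set M := Z o y * z with hM
  have hM0 : 0 < M := mul_pos hoyZ hz0
  -- weights
  let b : V → ℝ := fun u => c o u * c u y / c o y
  let p : V → ℝ := fun u => w u / b u
  have hb : ∀ u, w u ≠ 0 → 0 < b u := fun u hu =>
    div_pos (mul_pos (hpos u hu).1 (hpos u hu).2) hoy
  have hp0 : ∀ u, w u = 0 → p u = 0 := fun u hu => by simp [p, hu]
  have hpnn : ∀ u, 0 ≤ p u := by
    intro u
    by_cases hu : w u = 0
    · rw [hp0 u hu]
    · exact div_nonneg (hw u) (hb u hu).le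
  have hpM : ∀ u, p u * (Z u y * Z o u) = w u * M := by
    intro u
    by_cases hu : w u = 0
    · rw [hp0 u hu, hu]
      ring
    · have h1 := (hpos u hu).1.ne'
      have h2 := (hpos u hu).2.ne'
      have h3 := hoy.ne'
      simp only [p, b, hM, hZc]
      field_simp
  -- the random variable
  let N : Finset E → Finset E → ℝ := fun T₁ T₂ => ∑ u, p u * kap ends o u T₁ T₂
  have t1 : ∀ x z : V, ∀ T, 0 ≤ tw ends β T (two x z) := fun x z T => hN V E ends β T x z hβ
  have t0 : ∀ T, 0 ≤ tw ends β T (fun _ => 1) := by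
    intro T
    rw [← fin_two_self o]
    exact t1 o o T
  let L : (Finset E → Finset E → ℝ) → ℝ := fun Ψ => PP ends β (two o y) (fun _ => 1) Ψ
  have L1 : L (fun _ _ => 1) = M := fin_PP_one hT _ _
  have LN : L N = M := by
    have e : L N = ∑ u, p u * (Z u y * Z o u) := by
      show PP ends β (two o y) (fun _ => 1) N = _
      rw [fin_sum]
      refine Finset.sum_congr rfl fun u _ => ?_
      rw [fin_smul]
      congr 1
      exact fin_K1 hT hS hR o u y
    rw [e]
    simp only [hpM]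
    rw [← Finset.sum_mul, hw1, one_mul]
  set Q := ∑ u, ∑ v, w u * w v *
        (c o y * c u v * (1 / (c o u * c v y) + 1 / (c o v * c u y))) with hQ
  have LNN : L (fun T₁ T₂ => N T₁ T₂ ^ 2) ≤ M * Q := by
    have e : L (fun T₁ T₂ => N T₁ T₂ ^ 2) = ∑ u, ∑ v, p u * p v *
        L (fun T₁ T₂ => kap ends o u T₁ T₂ * kap ends o v T₁ T₂) := by
      have e1 : (fun T₁ T₂ => N T₁ T₂ ^ 2) = fun T₁ T₂ => ∑ u, ∑ v, p u * p v *
          (kap ends o u T₁ T₂ * kap ends o v T₁ T₂) := by
        funext T₁ T₂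
        rw [sq, Finset.sum_mul_sum]
        refine Finset.sum_congr rfl fun u _ => Finset.sum_congr rfl fun v _ => by ring
      rw [e1]
      show PP ends β (two o y) (fun _ => 1) _ = _
      rw [fin_sum]
      refine Finset.sum_congr rfl fun u _ => ?_
      rw [fin_sum]
      refine Finset.sum_congr rfl fun v _ => ?_
      exact fin_smul _ _ (p u * p v) _
    rw [e, hQ, Finset.mul_sum]
    refine Finset.sum_le_sum fun u _ => ?_
    rw [Finset.mul_sum]
    refine Finset.sum_le_sum fun v _ => ?_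
    by_cases hu : w u = 0
    · simp [hu, hp0 u hu]
    by_cases hv : w v = 0
    · simp [hv, hp0 v hv]
    have h := fin_K12_le (ends := ends) hT hS hR hX hβ o u v y
    have h' : L (fun T₁ T₂ => kap ends o u T₁ T₂ * kap ends o v T₁ T₂) ≤
        (Z o v * Z u v * Z u y + Z u v * Z v y * Z o u) / z := by
      rw [le_div_iff₀ hz0]
      exact h
    refine (mul_le_mul_of_nonneg_left h' (mul_nonneg (hpnn u) (hpnn v))).trans (le_of_eq ?_)
    have h1 := (hpos u hu).1.ne'
    have h2 := (hpos u hu).2.ne'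
    have h3 := (hpos v hv).1.ne'
    have h4 := (hpos v hv).2.ne'
    have h5 := hoy.ne'
    simp only [p, b, hM, hZc]
    field_simp
  -- Cauchy-Schwarz
  have CS : |L (fun T₁ T₂ => fin_A F T₁ * (1 - N T₁ T₂))| ≤ M * Real.sqrt (Q - 1) := by
    have h1 := fin_cs (ends := ends) (β := β)
      (fun T₁ T₂ => fin_A F T₁ * (1 - N T₁ T₂)) (t1 o y) t0
    have h2 : L (fun T₁ T₂ => (fin_A F T₁ * (1 - N T₁ T₂)) ^ 2) ≤
        L (fun T₁ T₂ => (1 + N T₁ T₂ ^ 2) - 2 * N T₁ T₂) := by
      refine fin_mono (t1 o y) t0 fun T₁ T₂ _ _ => ?_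
      have h3 := fin_A_nonneg F T₁
      have h4 := fin_A_le_one F T₁
      have h5 : fin_A F T₁ ^ 2 ≤ 1 := by nlinarith
      have h6 := sq_nonneg (1 - N T₁ T₂)
      nlinarith
    have h3 : L (fun T₁ T₂ => (1 + N T₁ T₂ ^ 2) - 2 * N T₁ T₂) =
        M + L (fun T₁ T₂ => N T₁ T₂ ^ 2) - 2 * M := by
      have e1 : L (fun T₁ T₂ => (1 + N T₁ T₂ ^ 2) - 2 * N T₁ T₂) =
        L (fun T₁ T₂ => 1 + N T₁ T₂ ^ 2) - L (fun T₁ T₂ => 2 * N T₁ T₂) := fin_sub _ _ _ _
      have e2 : L (fun T₁ T₂ => 1 + N T₁ T₂ ^ 2) =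
        L (fun _ _ => 1) + L (fun T₁ T₂ => N T₁ T₂ ^ 2) := fin_add _ _ _ _
      have e3 : L (fun T₁ T₂ => 2 * N T₁ T₂) = 2 * L N := fin_smul _ _ _ _
      rw [e1, e2, e3, L1, LN]
    have h4 : L (fun T₁ T₂ => fin_A F T₁ * (1 - N T₁ T₂)) ^ 2 ≤ M ^ 2 * (Q - 1) := by
      refine h1.trans ?_
      have e1 : PP ends β (two o y) (fun _ => 1) (fun _ _ => 1) = M := L1
      rw [e1]
      have h5 : M * L (fun T₁ T₂ => (fin_A F T₁ * (1 - N T₁ T₂)) ^ 2) ≤ M * (M * Q - M) :=
        mul_le_mul_of_nonneg_left (h2.trans (by rw [h3]; linarith)) hM0.le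
      refine h5.trans (le_of_eq ?_)
      ring
    have h5 := Real.abs_le_sqrt h4
    refine h5.trans (le_of_eq ?_)
    rw [Real.sqrt_mul (sq_nonneg M), Real.sqrt_sq hM0.le]
  -- the main comparison
  have LA : L (fun T₁ _ => fin_A F T₁) = G o y * z := fin_PP_A hT F _ _
  have LAN : L (fun T₁ T₂ => fin_A F T₁ * (1 - N T₁ T₂)) = G o y * z -
      ∑ u, p u * L (fun T₁ T₂ => fin_A F T₁ * kap ends o u T₁ T₂) := by
    have e1 : (fun T₁ T₂ => fin_A F T₁ * (1 - N T₁ T₂)) = fun T₁ T₂ =>
        fin_A F T₁ - ∑ u, p u * (fin_A F T₁ * kap ends o u T₁ T₂) := by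
      funext T₁ T₂
      rw [mul_sub, mul_one, Finset.mul_sum]
      congr 1
      refine Finset.sum_congr rfl fun u _ => by ring
    rw [e1]
    have e2 : L (fun T₁ T₂ => fin_A F T₁ - ∑ u, p u * (fin_A F T₁ * kap ends o u T₁ T₂)) =
      L (fun T₁ _ => fin_A F T₁) - L (fun T₁ T₂ => ∑ u, p u * (fin_A F T₁ * kap ends o u T₁ T₂)) :=
      fin_sub _ _ _ _
    rw [e2, LA]
    congr 1
    show PP ends β (two o y) (fun _ => 1) _ = _
    rw [fin_sum]
    refine Finset.sum_congr rfl fun u _ => ?_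
    exact fin_smul _ _ (p u) _
  have hdiff : ∀ u, |p u * L (fun T₁ T₂ => fin_A F T₁ * kap ends o u T₁ T₂) -
      w u * M * (G o u / Z o u)| ≤ w u * (D * M) := by
    intro u
    by_cases hu : w u = 0
    · simp [hu, hp0 u hu]
    have hou := hZp o u (hpos u hu).1
    have huy := hZp u y (hpos u hu).2
    have e1 : w u * M * (G o u / Z o u) = p u * (G o u * Z u y) := by
      rw [← hpM u]
      field_simp
    rw [e1, ← mul_sub, abs_mul, abs_of_nonneg (hpnn u)]
    have h1 := fin_diff (ends := ends) hN hT hS hR hβ F o u y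
    have h2 := fin_Y (ends := ends) hN hT hS hR hβ F o u y
    have h3 := hD u hu
    -- rewrite the hypothesis
    have h4 : ∑ x, {x | IsEnd ends F x}.indicator (fun x => Z u x * Z x y) x ≤
        D * Z u y * z := by
      have e2 : ∑ x, {x | IsEnd ends F x}.indicator (fun x => Z u x * Z x y) x =
          z ^ 2 * ∑ x, {x | IsEnd ends F x}.indicator (fun x => c u x * c x y) x := by
        rw [Finset.mul_sum]
        refine Finset.sum_congr rfl fun x _ => ?_
        by_cases hx : x ∈ {x | IsEnd ends F x}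
        · rw [indicator_of_mem hx, indicator_of_mem hx, hZc, hZc]
          ring
        · rw [indicator_of_notMem hx, indicator_of_notMem hx, mul_zero]
      rw [e2, hZc u y]
      have := mul_le_mul_of_nonneg_left h3 (sq_nonneg z)
      refine this.trans (le_of_eq (by ring))
    have h5 : PP ends β (two o u) (two u y) (fun T₁ T₂ => 1 - fin_eta ends F u y (T₁ ∪ T₂)) * z ≤
        Z o u * (D * Z u y) * z := by
      refine h2.trans ?_
      have := mul_le_mul_of_nonneg_left h4 (hZnn o u)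
      refine this.trans (le_of_eq (by ring))
    have h6 := le_of_mul_le_mul_right h5 hz0
    have h7 : |L (fun T₁ T₂ => fin_A F T₁ * kap ends o u T₁ T₂) - G o u * Z u y| ≤
        Z o u * (D * Z u y) := h1.trans h6
    refine (mul_le_mul_of_nonneg_left h7 (hpnn u)).trans (le_of_eq ?_)
    have := hpM u
    calc p u * (Z o u * (D * Z u y)) = D * (p u * (Z u y * Z o u)) := by ring
      _ = w u * (D * M) := by rw [this]; ring
  have hsum : |∑ u, p u * L (fun T₁ T₂ => fin_A F T₁ * kap ends o u T₁ T₂) -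
      ∑ u, w u * M * (G o u / Z o u)| ≤ D * M := by
    rw [← Finset.sum_sub_distrib]
    refine (Finset.abs_sum_le_sum_abs _ _).trans ((Finset.sum_le_sum fun u _ => hdiff u).trans ?_)
    rw [← Finset.sum_mul, hw1, one_mul]
  have hmain : |G o y / Z o y - ∑ u, w u * (G o u / Z o u)| ≤ Real.sqrt (Q - 1) + D := by
    have e1 : M * (G o y / Z o y - ∑ u, w u * (G o u / Z o u)) =
        L (fun T₁ T₂ => fin_A F T₁ * (1 - N T₁ T₂)) +
        (∑ u, p u * L (fun T₁ T₂ => fin_A F T₁ * kap ends o u T₁ T₂) -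
          ∑ u, w u * M * (G o u / Z o u)) := by
      rw [LAN, mul_sub, Finset.mul_sum]
      have e2 : M * (G o y / Z o y) = G o y * z := by
        rw [hM]
        field_simp
      have e3 : ∑ u, M * (w u * (G o u / Z o u)) = ∑ u, w u * M * (G o u / Z o u) :=
        Finset.sum_congr rfl fun u _ => by ring
      rw [e2, e3]
      ring
    have h1 : M * |G o y / Z o y - ∑ u, w u * (G o u / Z o u)| ≤
        M * (Real.sqrt (Q - 1) + D) := by
      rw [← abs_of_pos hM0, ← abs_mul, abs_of_pos hM0, e1]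
      refine (abs_add_le _ _).trans ?_
      rw [mul_add]
      exact add_le_add CS (hsum.trans (le_of_eq (mul_comm _ _)))
    exact le_of_mul_le_mul_left h1 hM0
  -- conclusion
  have e : a o y / c o y - ∑ u, w u * (a o u / c o u) =
      r * (G o y / Z o y - ∑ u, w u * (G o u / Z o u)) := by
    rw [hac, mul_sub, Finset.mul_sum]
    congr 1
    refine Finset.sum_congr rfl fun u _ => ?_
    rw [hac]
    ring
  rw [e, abs_mul, abs_of_pos hr0]
  calc r * |G o y / Z o y - ∑ u, w u * (G o u / Z o u)|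
      ≤ 1 * |G o y / Z o y - ∑ u, w u * (G o u / Z o u)| :=
        mul_le_mul_of_nonneg_right hr1 (abs_nonneg _)
    _ ≤ _ := by rw [one_mul]; exact hmain

end IIC
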